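import Pool.Agent.Helper86.CT.KerT
import Pool.Agent.Helper86.CX.Pc

/-!
Pieces of the frontier of a class with tails: lists of cells (all the tail kappas in a box), with the
block tests, the static tests, the slit tests and the chain of the heights.
-/

set_option autoImplicit false
noncomputable section
namespace Pool.Agent.Helper86.CT

open Pool.Agent.Helper86.C75 (Z)
open Pool.Agent.Helper86.CX

/-- heights (unit `2 ^ (-48)`), lower bound of `Im x - Im u`, control values of `1/z`, tables of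
forms, multipliers (32 bits), slit multipliers (64 bits: `Re s`, `Im s`, offset `2 ^ 31`) -/
structure CellT (α β : Type) where
  ya : Nat
  yb : Nat
  m : Nat
  u : α
  K : β
  L : β
  S : β

/-- tests at all vertices -/
structure Vx (β : Type) where
  al : (Nat → Nat → Bool) → β → β → Bool
def W0 : Vx Nat := ⟨fun f x y => f x y⟩
def nxW {β : Type} (V : Vx β) : Vx (Pr β) :=
  ⟨fun f x y => andB (V.al f x.a y.a) (V.al f x.b y.b)⟩
def W1 : Vx (Pr Nat) := nxW W0
def W2 : Vx (Pr (Pr Nat)) := nxW W1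
def W3 : Vx (Pr (Pr (Pr Nat))) := nxW W2
def W4 : Vx (Pr (Pr (Pr (Pr Nat)))) := nxW W3

/-- control values of `i y` -/
def yN {α : Type} (A : Alg α) (a b : Nat) : N3 α :=
  N3.q (A.cs ⟨Z.p (nat_lit 0), Z.p a⟩) (A.cs ⟨Z.p (nat_lit 0), Z.p (hs a b)⟩) (A.cs ⟨Z.p (nat_lit 0), Z.p b⟩)
def y1 : Nat → Nat → N3 Cx := yN A0
def y2 : Nat → Nat → N3 (N3 Cx) := yN A1
def y3 : Nat → Nat → N3 (N3 (N3 Cx)) := yN A2
def y4 : Nat → Nat → N3 (N3 (N3 (N3 Cx))) := yN A3

/-- form number `k`, multiplier number `l`, the two ends of `t = (1 - S)/2` modulo `2 ^ 1152` -/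
structure LT2 where
  k : Nat
  l : Nat
  ta : Nat
  tb : Nat

/-- slit tests at a vertex -/
def slV (l : List LT2) (T S : Nat) : Bool :=
  List.rec (motive := fun _ => Bool) true
    (fun x _ ih => andB (sl2 (v32 S (Nat.mul (nat_lit 64) x.l)) (v32 S (Nat.add (Nat.mul (nat_lit 64) x.l) (nat_lit 32))) x.ta (kf T x.k))
      (andB (sl2 (v32 S (Nat.mul (nat_lit 64) x.l)) (v32 S (Nat.add (Nat.mul (nat_lit 64) x.l) (nat_lit 32))) x.tb (kf T x.k)) ih)) l
/-- static and slit tests at a vertex -/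
def ssV (sl : List Nat) (le : List LT2) (T S : Nat) : Bool := andB (stT T sl) (slV le T S)

/-- all tests of a cell; `x0` the model of `Re x` -/
def chkDT {α β p v γ : Type} (M : Mc α β p v γ) (S : Sv p) (W : Vx β) (y : Nat → Nat → α)
    (C : Cls α) (G : Prog v) (x0 : Mo α) (sl : List Nat) (le : List LT2) (c : CellT α β) : Bool :=
  andB (evC c.ya c.yb) (andB (chCell M S C G (addM M.A x0 (mk M.A (y c.ya c.yb) (nat_lit 0))) c.m c.u c.K c.L)
    (W.al (ssV sl le) c.K c.S))

/-- a chain of cells from `y` to `e` -/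
def chkPcT {α β p v γ : Type} (M : Mc α β p v γ) (S : Sv p) (W : Vx β) (y : Nat → Nat → α)
    (C : Cls α) (G : Prog v) (x0 : Mo α) (sl : List Nat) (le : List LT2) (e : Nat)
    (l : List (CellT α β)) : Nat → Bool :=
  List.rec (motive := fun _ => Nat → Bool) (fun a => Nat.beq a e)
    (fun c _ ih a => andB (Nat.beq a c.ya) (andB (Nat.ble c.ya c.yb) (andB (chkDT M S W y C G x0 sl le c) (ih c.yb)))) l

end Pool.Agent.Helper86.CT
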