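import Pool.Agent.Helper86.CX.Ker

/-!
Kernel checker for the cells of the classes with tails (MP_c75db0, complex line): tensor quadratic
models in `y` and in the tail kappas. `y` is the outermost variable.
-/

set_option autoImplicit false
noncomputable section
namespace Pool.Agent.Helper86.CT

open Pool.Agent.Helper86.C75 (Z)
open Pool.Agent.Helper86.C75.Z (opp)
open Pool.Agent.Helper86.CX


/-! ### trees -/

/-- a function of one more variable: constant, or quadratic with control values `a, c, b` -/
inductive N3 (α : Type) where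
  | k (x : α) : N3 α
  | q (a c b : α) : N3 α

/-- a multi-affine function: the two ends -/
structure Pr (α : Type) where
  a : α
  b : α

/-- bounds of `|b - a|` and `|c - (a + b)/2|` -/
structure DF where
  D : Nat
  F : Nat

def un {α β : Type} (f : α → β) (x : N3 α) : N3 β :=
  N3.rec (motive := fun _ => N3 β) (fun x => N3.k (f x)) (fun a c b => N3.q (f a) (f c) (f b)) x
def bi {α β γ : Type} (f : α → β → γ) (x : N3 α) (y : N3 β) : N3 γ :=
  N3.rec (motive := fun _ => N3 γ)
    (fun x => N3.rec (motive := fun _ => N3 γ) (fun y => N3.k (f x y))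
      (fun a c b => N3.q (f x a) (f x c) (f x b)) y)
    (fun a c b => N3.rec (motive := fun _ => N3 γ) (fun y => N3.q (f a y) (f c y) (f b y))
      (fun a' c' b' => N3.q (f a a') (f c c') (f b b')) y) x

/-- operations of the scalar trees -/
structure Alg (α : Type) where
  add : α → α → α
  sub : α → α → α
  mul : α → α → α
  q4 : α → α
  cj : α → α
  cs : Cx → α
  inv : α → α
  nb : α → Nat
  df : α → List DF

def mxL (l l' : List DF) : List DF :=
  List.rec (motive := fun _ => List DF → List DF) (fun _ => [])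
    (fun x _ ih l' => List.rec (motive := fun _ => List DF) []
      (fun y t _ => ⟨mx x.D y.D, mx x.F y.F⟩ :: ih t) l') l l'

def A0 : Alg Cx :=
  ⟨cadd, csub, cmul, cq4, cconj, fun c => c, fun x => cdiv one1 x, nb, fun _ => []⟩

def mulN {α : Type} (A : Alg α) (x y : N3 α) : N3 α :=
  N3.rec (motive := fun _ => N3 α)
    (fun x => N3.rec (motive := fun _ => N3 α) (fun y => N3.k (A.mul x y))
      (fun a c b => N3.q (A.mul x a) (A.mul x c) (A.mul x b)) y)
    (fun a c b => N3.rec (motive := fun _ => N3 α)
      (fun y => N3.q (A.mul a y) (A.mul c y) (A.mul b y))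
      (fun a' c' b' => N3.q (A.mul a a')
        (A.sub (A.mul c c') (A.q4 (A.mul (A.sub b a) (A.sub b' a')))) (A.mul b b')) y) x
def invN1 {α : Type} (A : Alg α) (a c b a' b' : α) : N3 α :=
  N3.q a' (A.mul (A.add (A.cs one1) (A.q4 (A.mul (A.sub b a) (A.sub b' a')))) (A.inv c)) b'
def invN {α : Type} (A : Alg α) (x : N3 α) : N3 α :=
  N3.rec (motive := fun _ => N3 α) (fun x => N3.k (A.inv x))
    (fun a c b => invN1 A a c b (A.inv a) (A.inv b)) x
def nbN {α : Type} (A : Alg α) (x : N3 α) : Nat :=
  N3.rec (motive := fun _ => Nat) (fun x => A.nb x)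
    (fun a c b => mx (A.nb a) (mx (A.nb c) (A.nb b))) x
def dfN {α : Type} (A : Alg α) (x : N3 α) : List DF :=
  N3.rec (motive := fun _ => List DF) (fun x => ⟨(nat_lit 0), (nat_lit 0)⟩ :: A.df x)
    (fun a c b => ⟨A.nb (A.sub b a), Nat.add (Nat.div (A.nb (A.sub (A.add c c) (A.add a b))) (nat_lit 2)) (nat_lit 1)⟩ ::
      mxL (A.df a) (mxL (A.df c) (A.df b))) x

def nx {α : Type} (A : Alg α) : Alg (N3 α) :=
  ⟨bi A.add, bi A.sub, mulN A, un A.q4, un A.cj, fun c => N3.k (A.cs c), invN A, nbN A, dfN A⟩

def A1 : Alg (N3 Cx) := nx A0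
def A2 : Alg (N3 (N3 Cx)) := nx A1
def A3 : Alg (N3 (N3 (N3 Cx))) := nx A2
def A4 : Alg (N3 (N3 (N3 (N3 Cx)))) := nx A3

/-! ### models -/

/-- a model: control values, radius, bound, bounds of the differences -/
structure Mo (α : Type) where
  v : α
  r : Nat
  B : Nat
  l : List DF

def isz (x : DF) : Bool := Nat.beq (Nat.add x.D x.F) (nat_lit 0)
/-- error of the product of the interpolations, in units `2 ^ (-96)` -/
def er1 (x y : DF) (e : Nat) : Nat :=
  Bool.rec (motive := fun _ => Nat)
    (Bool.rec (motive := fun _ => Nat)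
      (Nat.add (Nat.add (Nat.add (Nat.div (Nat.add (Nat.mul x.D y.F) (Nat.mul x.F y.D)) (nat_lit 10)) (Nat.div (Nat.mul x.F y.F) (nat_lit 4))) (nat_lit 2)) (Nat.mul (nat_lit 2) e))
      e (isz x)) e (isz y)
def er (l : List DF) : List DF → Nat :=
  List.rec (motive := fun _ => List DF → Nat) (fun _ => (nat_lit 0))
    (fun x _ ih l' => List.rec (motive := fun _ => Nat) (nat_lit 0) (fun y t _ => er1 x y (ih t)) l') l

def mk {α : Type} (A : Alg α) (v : α) (r : Nat) : Mo α := ⟨v, r, A.nb v, A.df v⟩
def cst {α : Type} (A : Alg α) (c r : Nat) : Mo α := mk A (A.cs ⟨Z.p c, Z.p (nat_lit 0)⟩) r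
def addM {α : Type} (A : Alg α) (f g : Mo α) : Mo α := mk A (A.add f.v g.v) (Nat.add f.r g.r)
def subM {α : Type} (A : Alg α) (f g : Mo α) : Mo α := mk A (A.sub f.v g.v) (Nat.add f.r g.r)
def conjM {α : Type} (A : Alg α) (f : Mo α) : Mo α := ⟨A.cj f.v, f.r, f.B, f.l⟩
/-- radius of a product -/
def prad {α : Type} (f g : Mo α) : Nat :=
  Nat.add (Nat.shiftRight (Nat.add (Nat.add (Nat.add (Nat.mul f.r g.B) (Nat.mul g.r f.B)) (Nat.mul f.r g.r)) (er f.l g.l)) (nat_lit 48)) (nat_lit 17)
def mulM {α : Type} (A : Alg α) (f g : Mo α) : Mo α := mk A (A.mul f.v g.v) (prad f g)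

/-- the residual of `f g = 1` -/
def resM {α : Type} (A : Alg α) (f g : Mo α) : Nat :=
  Nat.add (Nat.add (Nat.add (A.nb (A.sub (A.mul f.v g.v) (A.cs one1))) (nat_lit 16)) (Nat.shiftRight (Nat.add (er f.l g.l) (Nat.mul f.r g.B)) (nat_lit 48))) (nat_lit 1)
def inv2 {α : Type} (g : Mo α) (e : Nat) : Mo α :=
  ⟨g.v, Nat.add (Nat.div (Nat.mul e g.B) (Nat.sub (nat_lit 281474976710656) e)) (nat_lit 1), g.B, g.l⟩
def inv1 {α : Type} (A : Alg α) (f g : Mo α) : Mo α := inv2 g (resM A f g)
def inv0 {α : Type} (A : Alg α) (f : Mo α) : Mo α := mk A (A.inv f.v) (nat_lit 0)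
def invM {α : Type} (A : Alg α) (f : Mo α) : Mo α := inv1 A f (inv0 A f)
def invOK {α : Type} (A : Alg α) (f : Mo α) : Bool := Nat.ble (resM A f (inv0 A f)) (nat_lit 140737488355328)

/-! ### class constants: `λ_n`, `k/2`, `k/4`, `k²/(4(2+k))` -/

structure Cls (α : Type) where
  l0 : Mo α
  l1 : Mo α
  l2 : Mo α
  h0 : Mo α
  h1 : Mo α
  h2 : Mo α
  q0 : Mo α
  q1 : Mo α
  q2 : Mo α
  e0 : Mo α
  e1 : Mo α
  e2 : Mo α

def lamM {α : Type} (A : Alg α) (c a b : Mo α) : Mo α :=
  mulM A (addM A c c) (invM A (mulM A a b))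
def fkM {α : Type} (A : Alg α) (k : Mo α) : Mo α :=
  addM A (cst A (nat_lit 2251799813685248) (nat_lit 0)) (addM A (addM A k k) (addM A k k))
def keM {α : Type} (A : Alg α) (k : Mo α) : Mo α :=
  mulM A (mulM A k k) (invM A (fkM A k))
def mkCls {α : Type} (A : Alg α) (k0 k1 k2 : Mo α) : Cls α :=
  ⟨lamM A k1 k0 k2, lamM A k2 k1 k0, lamM A k0 k2 k1,
    mulM A (cst A (nat_lit 140737488355328) (nat_lit 0)) k0, mulM A (cst A (nat_lit 140737488355328) (nat_lit 0)) k1, mulM A (cst A (nat_lit 140737488355328) (nat_lit 0)) k2,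
    mulM A (cst A (nat_lit 70368744177664) (nat_lit 0)) k0, mulM A (cst A (nat_lit 70368744177664) (nat_lit 0)) k1, mulM A (cst A (nat_lit 70368744177664) (nat_lit 0)) k2,
    keM A k0, keM A k1, keM A k2⟩
def clsOK {α : Type} (A : Alg α) (k0 k1 k2 : Mo α) : Bool :=
  andB (invOK A (mulM A k0 k2)) (andB (invOK A (mulM A k1 k0)) (andB (invOK A (mulM A k2 k1))
    (andB (invOK A (fkM A k0)) (andB (invOK A (fkM A k1)) (invOK A (fkM A k2))))))

/-- `(4 - k² k'² - h²)/(k k' h)` -/
def xA1 {α : Type} (A : Alg α) (g h : Mo α) : Mo α :=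
  mulM A (subM A (subM A (cst A (nat_lit 1125899906842624) (nat_lit 0)) (mulM A g g)) (mulM A h h)) (invM A (mulM A g h))
def xAM {α : Type} (A : Alg α) (k k' h : Mo α) : Mo α := xA1 A (mulM A k k') h
def xAOK {α : Type} (A : Alg α) (k k' h : Mo α) : Bool := invOK A (mulM A (mulM A k k') h)

/-! ### `z` and `1/z` -/

def gM {α : Type} (A : Alg α) (l z : Mo α) : Mo α :=
  addM A (cst A (nat_lit 562949953421312) (nat_lit 0)) (addM A (mulM A l z) (mulM A l z))

/-- tests at all leaves: `m ≤ Im x - Im u`, `Im u ≤ 0` -/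
structure Tst (α : Type) where
  t : Nat → α → α → Bool
def T0 : Tst Cx := ⟨mOK1⟩
def tstN {α : Type} (T : Tst α) (m : Nat) (x y : N3 α) : Bool :=
  N3.rec (motive := fun _ => Bool)
    (fun x => N3.rec (motive := fun _ => Bool) (fun y => T.t m x y)
      (fun a c b => andB (T.t m x a) (andB (T.t m x c) (T.t m x b))) y)
    (fun a c b => N3.rec (motive := fun _ => Bool)
      (fun y => andB (T.t m a y) (andB (T.t m c y) (T.t m b y)))
      (fun a' c' b' => andB (T.t m a a') (andB (T.t m c c') (T.t m b b'))) y) x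
def nxT {α : Type} (T : Tst α) : Tst (N3 α) := ⟨tstN T⟩
def T1 : Tst (N3 Cx) := nxT T0
def T2 : Tst (N3 (N3 Cx)) := nxT T1
def T3 : Tst (N3 (N3 (N3 Cx))) := nxT T2
def T4 : Tst (N3 (N3 (N3 (N3 Cx)))) := nxT T3

/-- `1/z`: radius from the residual; `m ≤ Im x - Im u` -/
def uM {α : Type} (A : Alg α) (m : Nat) (x u z : Mo α) : Mo α :=
  ⟨u.v, Nat.add (Nat.div (Nat.mul (Nat.add (Nat.add (Nat.add (A.nb (A.sub (A.mul z.v u.v) (A.cs one1))) (nat_lit 16)) (Nat.shiftRight (Nat.add (er z.l u.l) (Nat.mul u.B x.r)) (nat_lit 48))) (nat_lit 1)) (nat_lit 281474976710656)) m) (nat_lit 1), u.B, u.l⟩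
def zM {α : Type} (x u z : Mo α) : Mo α := ⟨z.v, Nat.add u.r x.r, z.B, z.l⟩

/-! ### coefficient sets -/

structure CE (α : Type) where
  c2 : Mo α
  c3 : Mo α
  n22 : Mo α
  n33 : Mo α
  m : Mo α
def mkE2 {α : Type} (A : Alg α) (c2 c3 : Mo α) : CE α :=
  ⟨c2, c3, mulM A c2 (conjM A c2), mulM A c3 (conjM A c3), mulM A (conjM A c2) c3⟩
def mkE {α : Type} (A : Alg α) (c2 s : Mo α) : CE α := mkE2 A c2 (mulM A s c2)
def mkR {α : Type} (A : Alg α) (o : Mo α) : CE α :=
  mkE2 A o (mulM A o (subM A (cst A (nat_lit 140737488355328) (nat_lit 0)) o))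
/-- `diag(1, 1/5 + o/10, 1/5 - 2 o/5)` -/
def mkL {α : Type} (A : Alg α) (o : Mo α) : CE α :=
  mkE2 A (addM A (cst A (nat_lit 56294995342131) (nat_lit 1)) (mulM A (cst A (nat_lit 28147497671066) (nat_lit 1)) o))
    (subM A (cst A (nat_lit 56294995342131) (nat_lit 1)) (mulM A (cst A (nat_lit 112589990684262) (nat_lit 1)) o))

structure CO (α : Type) where
  c2 : Mo α
  c3 : Mo α
  e : Mo α
  n22 : Mo α
  n33 : Mo α
  nee : Mo α
  m : Mo α
  p : Mo α
  q : Mo α
def mkO2 {α : Type} (A : Alg α) (c2 c3 e : Mo α) : CO α :=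
  ⟨c2, c3, e, mulM A c2 (conjM A c2), mulM A c3 (conjM A c3), mulM A e (conjM A e),
    mulM A (conjM A c2) c3, mulM A (conjM A c2) e, mulM A (conjM A e) c3⟩
def mkO1 {α : Type} (A : Alg α) (c2 q ke t : Mo α) : CO α :=
  mkO2 A c2 (mulM A c2 (subM A q t)) (subM A t ke)
def mkO {α : Type} (A : Alg α) (c2 s h q ke : Mo α) : CO α := mkO1 A c2 q ke (mulM A h s)

/-! ### the forms -/

/-- vertices of the tables: `up f t` is `2 ^ L` times the multi-affine function -/
structure Up (β α : Type) where
  up : (Nat → Cx) → β → α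
def U0 : Up Nat Cx := ⟨fun f x => f x⟩
def upN1 {α : Type} (A : Alg α) (x y : α) : N3 α := N3.q (A.add x x) (A.add x y) (A.add y y)
def nxU {α β : Type} (A : Alg α) (U : Up β α) : Up (Pr β) (N3 α) :=
  ⟨fun f t => upN1 A (U.up f t.a) (U.up f t.b)⟩
def U1 : Up (Pr Nat) (N3 Cx) := nxU A0 U0
def U2 : Up (Pr (Pr Nat)) (N3 (N3 Cx)) := nxU A1 U1
def U3 : Up (Pr (Pr (Pr Nat))) (N3 (N3 (N3 Cx))) := nxU A2 U2
def U4 : Up (Pr (Pr (Pr (Pr Nat)))) (N3 (N3 (N3 (N3 Cx)))) := nxU A3 U3

/-- signed entry times `w` -/
def sgP (w n : Nat) : Z :=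
  Bool.rec (motive := fun _ => Z) (Z.m (Nat.mul w (Nat.sub (nat_lit 2147483648) n))) (Z.p (Nat.mul w (Nat.sub n (nat_lit 2147483648))))
    (Nat.ble (nat_lit 2147483648) n)
def reE (w k i : Nat) (T : Nat) : Cx := ⟨sgP w (u32 (kf T k) i), Z.p (nat_lit 0)⟩
def cxE (w k i j : Nat) (T : Nat) : Cx := ⟨sgP w (u32 (kf T k) i), sgP w (u32 (kf T k) j)⟩

/-- the form number `k` as six models -/
structure KM (α : Type) where
  a : Mo α
  b : Mo α
  c : Mo α
  x : Mo α
  y : Mo α
  w : Mo α
def mkKM {α β : Type} (A : Alg α) (U : Up β α) (w : Nat) (T : β) (k : Nat) : KM α :=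
  ⟨mk A (U.up (reE w k (nat_lit 0)) T) (nat_lit 0), mk A (U.up (reE w k (nat_lit 32)) T) (nat_lit 0),
    mk A (U.up (reE w k (nat_lit 64)) T) (nat_lit 0), mk A (U.up (cxE w k (nat_lit 96) (nat_lit 128)) T) (nat_lit 0),
    mk A (U.up (cxE w k (nat_lit 160) (nat_lit 192)) T) (nat_lit 0), mk A (U.up (cxE w k (nat_lit 224) (nat_lit 256)) T) (nat_lit 0)⟩

def PE {α : Type} (A : Alg α) (C : CE α) (K : KM α) : KM α :=
  ⟨K.a, mulM A C.n22 K.b, mulM A C.n33 K.c, mulM A C.c2 K.x, mulM A C.c3 K.y, mulM A C.m K.w⟩
/-- twice the real part -/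
def re2 {α : Type} (A : Alg α) (f : Mo α) : Mo α := addM A f (conjM A f)
def PO {α : Type} (A : Alg α) (C : CO α) (K : KM α) : KM α :=
  ⟨K.a, mulM A C.n22 K.b,
    addM A (addM A (mulM A C.nee K.a) (mulM A C.n33 K.c)) (re2 A (mulM A C.q K.y)),
    mulM A C.c2 K.x, addM A (mulM A C.e K.a) (mulM A C.c3 K.y),
    addM A (mulM A C.p (conjM A K.x)) (mulM A C.m K.w)⟩

/-! ### packed forms -/

/-- zip of six trees into a tree of nine numbers modulo `2 ^ 2304` (diagonal minus the radii) -/
structure Zp (α β : Type) where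
  z : Nat → Nat → Nat → α → α → α → α → α → α → β
def zp0 (r s t : Nat) (a b c x y w : Cx) : P9 :=
  ⟨Nat.add (toM a.re) (Nat.mul NG r), Nat.add (toM b.re) (Nat.mul NG s), Nat.add (toM c.re) (Nat.mul NG t), toM x.re, toM x.im, toM y.re,
    toM y.im, toM w.re, toM w.im⟩
def Z0 : Zp Cx P9 := ⟨zp0⟩
def fa {α : Type} (x : N3 α) : α := N3.rec (motive := fun _ => α) (fun x => x) (fun a _ _ => a) x
def fc {α : Type} (x : N3 α) : α := N3.rec (motive := fun _ => α) (fun x => x) (fun _ c _ => c) x
def fb {α : Type} (x : N3 α) : α := N3.rec (motive := fun _ => α) (fun x => x) (fun _ _ b => b) x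
def nxZ {α β : Type} (F : Zp α β) : Zp (N3 α) (N3 β) :=
  ⟨fun r s t a b c x y w => N3.q (F.z r s t (fa a) (fa b) (fa c) (fa x) (fa y) (fa w))
    (F.z r s t (fc a) (fc b) (fc c) (fc x) (fc y) (fc w))
    (F.z r s t (fb a) (fb b) (fb c) (fb x) (fb y) (fb w))⟩
def Z1 : Zp (N3 Cx) (N3 P9) := nxZ Z0
def Z2 : Zp (N3 (N3 Cx)) (N3 (N3 P9)) := nxZ Z1
def Z3 : Zp (N3 (N3 (N3 Cx))) (N3 (N3 (N3 P9))) := nxZ Z2
def Z4 : Zp (N3 (N3 (N3 (N3 Cx)))) (N3 (N3 (N3 (N3 P9)))) := nxZ Z3

/-- radii on the diagonal -/
def zipP {α β : Type} (F : Zp α β) (P : KM α) : β :=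
  F.z (Nat.add (Nat.add P.a.r P.x.r) P.y.r) (Nat.add (Nat.add P.b.r P.x.r) P.w.r) (Nat.add (Nat.add P.c.r P.y.r) P.w.r)
    P.a.v P.b.v P.c.v P.x.v P.y.v P.w.v

/-- bilinear products; in a variable where both factors are quadratic the result is multiplied
by `4` -/
structure Bil (α β γ : Type) where
  sa : α → α → α
  sb : β → β → β
  mu : α → β → γ
  sg : γ → γ → γ
  m4 : γ → γ
def muN {α β γ : Type} (B : Bil α β γ) (x : N3 α) (y : N3 β) : N3 γ :=
  N3.rec (motive := fun _ => N3 γ)
    (fun x => N3.rec (motive := fun _ => N3 γ) (fun y => N3.k (B.mu x y))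
      (fun a c b => N3.q (B.mu x a) (B.mu x c) (B.mu x b)) y)
    (fun a c b => N3.rec (motive := fun _ => N3 γ)
      (fun y => N3.q (B.mu a y) (B.mu c y) (B.mu b y))
      (fun a' c' b' => N3.q (B.m4 (B.mu a a'))
        (B.sg (B.m4 (B.mu c c')) (B.mu (B.sa b a) (B.sb b' a'))) (B.m4 (B.mu b b'))) y) x
def nxB {α β γ : Type} (B : Bil α β γ) : Bil (N3 α) (N3 β) (N3 γ) :=
  ⟨bi B.sa, bi B.sb, muN B, bi B.sg, un B.m4⟩

def msub (x y : Nat) : Nat := md (Nat.add x (Nat.mul NG y))
def m4 (x : Nat) : Nat := Nat.mul (nat_lit 4) x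
def vsub (x y : VR) : VR :=
  ⟨msub x.a y.a, msub x.b y.b, msub x.c y.c, msub x.d y.d, msub x.e y.e, msub x.f y.f,
    msub x.g y.g, msub x.h y.h, msub x.i y.i⟩
def vadd (x y : VR) : VR :=
  ⟨md (Nat.add x.a y.a), md (Nat.add x.b y.b), md (Nat.add x.c y.c), md (Nat.add x.d y.d), md (Nat.add x.e y.e),
    md (Nat.add x.f y.f), md (Nat.add x.g y.g), md (Nat.add x.h y.h), md (Nat.add x.i y.i)⟩
def v4 (x : VR) : VR :=
  ⟨md (m4 x.a), md (m4 x.b), md (m4 x.c), md (m4 x.d), md (m4 x.e), md (m4 x.f), md (m4 x.g),
    md (m4 x.h), md (m4 x.i)⟩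
def dot (P : P9) (V : VR) : Nat :=
  md (Nat.add (Nat.add (Nat.add (Nat.add (Nat.add (Nat.add (Nat.add (Nat.add (Nat.mul P.a V.a) (Nat.mul P.b V.b)) (Nat.mul P.c V.c)) (Nat.mul P.d V.d)) (Nat.mul P.e V.e)) (Nat.mul P.f V.f)) (Nat.mul P.g V.g)) (Nat.mul P.h V.h)) (Nat.mul P.i V.i))
def B0 : Bil P9 VR Nat := ⟨psub, vsub, dot, msub, m4⟩
def B1 : Bil (N3 P9) (N3 VR) (N3 Nat) := nxB B0
def B2 : Bil (N3 (N3 P9)) (N3 (N3 VR)) (N3 (N3 Nat)) := nxB B1
def B3 : Bil (N3 (N3 (N3 P9))) (N3 (N3 (N3 VR))) (N3 (N3 (N3 Nat))) := nxB B2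
def B4 : Bil (N3 (N3 (N3 (N3 P9)))) (N3 (N3 (N3 (N3 VR)))) (N3 (N3 (N3 (N3 Nat)))) := nxB B3

/-! ### the matrices of the runs -/

/-- `1, R, R² - S, R² + S, 2 S R` modulo `2 ^ 2304` -/
structure Q4 where
  O : Nat
  R : Nat
  A : Nat
  W : Nat
  T : Nat

/-- packed `B^T E B' + B'^T E B` for the nine unit forms -/
def vp (x y : Q4) : VR :=
  ⟨md (Nat.add (Nat.add (Nat.add (Nat.add (Nat.add (Nat.mul (Nat.mul (nat_lit 2) x.O) y.O) (Nat.mul (nat_lit 115792089237316195423570985008687907853269984665640564039457584007913129639936) (Nat.mul (Nat.mul (nat_lit 8) x.R) y.R))) (Nat.mul (nat_lit 13407807929942597099574024998205846127479365820592393377723561443721764030073546976801874298166903427690031858186486050853753882811946569946433649006084096) (Nat.mul (Nat.mul (nat_lit 2) x.A) y.A))) (Nat.mul (nat_lit 1552518092300708935148979488462502555256886017116696611139052038026050952686376886330878408828646477950487730697131073206171580044114814391444287275041181139204454976020849905550265285631598444825262999193716468750892846853816057856)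 (Nat.add (Nat.mul (Nat.mul (nat_lit 2) x.R) y.O) (Nat.mul (Nat.mul (nat_lit 2) x.O) y.R)))) (Nat.mul (nat_lit 20815864389328798163850480654728171077230524494533409610638224700807216119346720596024478883464648369684843227908562015582767132496646929816279813211354641525848259018778440691546366699323167100945918841095379622423387354295096957733925002768876520583464697770622321657076833170056511209332449663781837603694136444406281042053396870977465916057756101739472373801429441421111406337458176) (Nat.add (Nat.mul x.A y.O) (Nat.mul x.O y.A)))) (Nat.mul (nat_lit 279095111627852376407822673918065072905887935345660252615989519488029661278604994789701101367875859521849524793382568057369148405837577299984720398976429790087982805274893437406788716103454867635208144157749912668657006085226160261808841484862703257771979713923863820038729637520989894984676774385364934677289947762340313157123529922421738738162392233756507666339799675257002539356619747080176786496732679854783185583233878234270370065954615221443190595445898747930123678952192875629172092437548194134594886873249778512829119416327938768896)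 (Nat.add (Nat.mul (Nat.mul (nat_lit 2) x.A) y.R) (Nat.mul (Nat.mul (nat_lit 2) x.R) y.A)))),
    md (Nat.add (Nat.add (Nat.add (Nat.add (Nat.add (Nat.mul (Nat.mul (nat_lit 2) x.R) y.R) (Nat.mul (nat_lit 115792089237316195423570985008687907853269984665640564039457584007913129639936) (Nat.mul (Nat.mul (nat_lit 2) x.A) y.A))) (Nat.mul (nat_lit 13407807929942597099574024998205846127479365820592393377723561443721764030073546976801874298166903427690031858186486050853753882811946569946433649006084096) (Nat.mul (Nat.mul (nat_lit 2) x.T) y.T))) (Nat.mul (nat_lit 1552518092300708935148979488462502555256886017116696611139052038026050952686376886330878408828646477950487730697131073206171580044114814391444287275041181139204454976020849905550265285631598444825262999193716468750892846853816057856) (Nat.add (Nat.mul x.A y.R) (Nat.mul x.R y.A)))) (Nat.mul (nat_lit 20815864389328798163850480654728171077230524494533409610638224700807216119346720596024478883464648369684843227908562015582767132496646929816279813211354641525848259018778440691546366699323167100945918841095379622423387354295096957733925002768876520583464697770622321657076833170056511209332449663781837603694136444406281042053396870977465916057756101739472373801429441421111406337458176)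 (Nat.mul NG (Nat.add (Nat.mul x.R y.T) (Nat.mul x.T y.R))))) (Nat.mul (nat_lit 279095111627852376407822673918065072905887935345660252615989519488029661278604994789701101367875859521849524793382568057369148405837577299984720398976429790087982805274893437406788716103454867635208144157749912668657006085226160261808841484862703257771979713923863820038729637520989894984676774385364934677289947762340313157123529922421738738162392233756507666339799675257002539356619747080176786496732679854783185583233878234270370065954615221443190595445898747930123678952192875629172092437548194134594886873249778512829119416327938768896) (Nat.mul NG (Nat.add (Nat.mul x.A y.T) (Nat.mul x.T y.A))))),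
    md (Nat.mul (Nat.mul (nat_lit 2) x.W) y.W),
    md (Nat.add (Nat.add (Nat.add (Nat.add (Nat.add (Nat.add (Nat.mul (Nat.mul (nat_lit 2) x.R) y.O) (Nat.mul (Nat.mul (nat_lit 2) x.O) y.R)) (Nat.mul (nat_lit 115792089237316195423570985008687907853269984665640564039457584007913129639936) (Nat.add (Nat.mul (Nat.mul (nat_lit 4) x.A) y.R) (Nat.mul (Nat.mul (nat_lit 4) x.R) y.A)))) (Nat.mul (nat_lit 13407807929942597099574024998205846127479365820592393377723561443721764030073546976801874298166903427690031858186486050853753882811946569946433649006084096) (Nat.mul NG (Nat.add (Nat.mul (Nat.mul (nat_lit 2) x.A) y.T) (Nat.mul (Nat.mul (nat_lit 2) x.T) y.A))))) (Nat.mul (nat_lit 1552518092300708935148979488462502555256886017116696611139052038026050952686376886330878408828646477950487730697131073206171580044114814391444287275041181139204454976020849905550265285631598444825262999193716468750892846853816057856) (Nat.add (Nat.add (Nat.mul x.A y.O) (Nat.mul (Nat.mul (nat_lit 4) x.R) y.R)) (Nat.mul x.O y.A)))) (Nat.mul (nat_lit 20815864389328798163850480654728171077230524494533409610638224700807216119346720596024478883464648369684843227908562015582767132496646929816279813211354641525848259018778440691546366699323167100945918841095379622423387354295096957733925002768876520583464697770622321657076833170056511209332449663781837603694136444406281042053396870977465916057756101739472373801429441421111406337458176)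 (Nat.add (Nat.add (Nat.mul x.A y.R) (Nat.mul x.R y.A)) (Nat.mul NG (Nat.add (Nat.mul x.T y.O) (Nat.mul x.O y.T)))))) (Nat.mul (nat_lit 279095111627852376407822673918065072905887935345660252615989519488029661278604994789701101367875859521849524793382568057369148405837577299984720398976429790087982805274893437406788716103454867635208144157749912668657006085226160261808841484862703257771979713923863820038729637520989894984676774385364934677289947762340313157123529922421738738162392233756507666339799675257002539356619747080176786496732679854783185583233878234270370065954615221443190595445898747930123678952192875629172092437548194134594886873249778512829119416327938768896) (Nat.add (Nat.mul (Nat.mul (nat_lit 2) x.A) y.A) (Nat.mul NG (Nat.add (Nat.mul (Nat.mul (nat_lit 2) x.R) y.T) (Nat.mul (Nat.mul (nat_lit 2) x.T) y.R)))))),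
    md (Nat.add (Nat.add (Nat.mul (nat_lit 179769313486231590772930519078902473361797697894230657273430081157732675805500963132708477322407536021120113879871393357658789768814416622492847430639474124377767893424865485276302219601246094119453082952085005768838150682342462881473913110540827237163350510684586298239947245938479716304835356329624224137216) (Nat.add (Nat.add (Nat.mul x.A y.O) (Nat.mul x.O y.A)) (Nat.mul NG (Nat.mul (Nat.mul (nat_lit 4) x.R) y.R)))) (Nat.mul (nat_lit 2410312426921032588580116606028314112912093247945688951359675039065257391591803200669085024107346049663448766280888004787862416978794958324969612987890774651455213339381625224770782077917681499676845543137387820057597345857904599109461387122099507964997815641342300677629473355281617428411794163967785870370368969109221591943054232011562758450080579587850900993714892283476646631181515063804873375182260506246992837898705971012525843324401232986857004760339316736) (Nat.mul NG (Nat.add (Nat.add (Nat.add (Nat.mul x.A y.R) (Nat.mul x.R y.A)) (Nat.mul x.T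 y.O)) (Nat.mul x.O y.T))))) (Nat.mul (nat_lit 32317006071311007300714876688669951960444102669715484032130345427524655138867890893197201411522913463688717960921898019494119559150490921095088152386448283120630877367300996091750197750389652106796057638384067568276792218642619756161838094338476170470581645852036305042887575891541065808607552399123930385521914333389668342420684974786564569494856176035326322058077805659331026192708460314150258592864177116725943603718461857357598351152301645904403697613233287231227125684710820209725157101726931323469678542580656697935045997268352998638215525166389437335543602135433229604645318478604952148193555853611059596230656) (Nat.mul NG (Nat.add (Nat.add (Nat.mul (Nat.mul (nat_lit 2) x.A) y.A) (Nat.mul (Nat.mul (nat_lit 2) x.R) y.T)) (Nat.mul (Nat.mul (nat_lit 2) x.T) y.R))))),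
    md (Nat.add (Nat.add (Nat.add (Nat.mul (Nat.mul (nat_lit 2) x.W) y.O) (Nat.mul (Nat.mul (nat_lit 2) x.O) y.W)) (Nat.mul (nat_lit 1552518092300708935148979488462502555256886017116696611139052038026050952686376886330878408828646477950487730697131073206171580044114814391444287275041181139204454976020849905550265285631598444825262999193716468750892846853816057856) (Nat.add (Nat.mul (Nat.mul (nat_lit 2) x.R) y.W) (Nat.mul (Nat.mul (nat_lit 2) x.W) y.R)))) (Nat.mul (nat_lit 20815864389328798163850480654728171077230524494533409610638224700807216119346720596024478883464648369684843227908562015582767132496646929816279813211354641525848259018778440691546366699323167100945918841095379622423387354295096957733925002768876520583464697770622321657076833170056511209332449663781837603694136444406281042053396870977465916057756101739472373801429441421111406337458176) (Nat.add (Nat.mul x.A y.W) (Nat.mul x.W y.A)))),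
    md (Nat.add (Nat.mul (nat_lit 179769313486231590772930519078902473361797697894230657273430081157732675805500963132708477322407536021120113879871393357658789768814416622492847430639474124377767893424865485276302219601246094119453082952085005768838150682342462881473913110540827237163350510684586298239947245938479716304835356329624224137216) (Nat.mul NG (Nat.add (Nat.mul (Nat.mul (nat_lit 2) x.R) y.W) (Nat.mul (Nat.mul (nat_lit 2) x.W) y.R)))) (Nat.mul (nat_lit 2410312426921032588580116606028314112912093247945688951359675039065257391591803200669085024107346049663448766280888004787862416978794958324969612987890774651455213339381625224770782077917681499676845543137387820057597345857904599109461387122099507964997815641342300677629473355281617428411794163967785870370368969109221591943054232011562758450080579587850900993714892283476646631181515063804873375182260506246992837898705971012525843324401232986857004760339316736) (Nat.mul NG (Nat.add (Nat.mul x.A y.W) (Nat.mul x.W y.A))))),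
    md (Nat.add (Nat.add (Nat.add (Nat.mul (Nat.mul (nat_lit 2) x.R) y.W) (Nat.mul (Nat.mul (nat_lit 2) x.W) y.R)) (Nat.mul (nat_lit 1552518092300708935148979488462502555256886017116696611139052038026050952686376886330878408828646477950487730697131073206171580044114814391444287275041181139204454976020849905550265285631598444825262999193716468750892846853816057856) (Nat.add (Nat.mul x.A y.W) (Nat.mul x.W y.A)))) (Nat.mul (nat_lit 20815864389328798163850480654728171077230524494533409610638224700807216119346720596024478883464648369684843227908562015582767132496646929816279813211354641525848259018778440691546366699323167100945918841095379622423387354295096957733925002768876520583464697770622321657076833170056511209332449663781837603694136444406281042053396870977465916057756101739472373801429441421111406337458176) (Nat.mul NG (Nat.add (Nat.mul x.T y.W) (Nat.mul x.W y.T))))),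
    md (Nat.add (Nat.mul (nat_lit 179769313486231590772930519078902473361797697894230657273430081157732675805500963132708477322407536021120113879871393357658789768814416622492847430639474124377767893424865485276302219601246094119453082952085005768838150682342462881473913110540827237163350510684586298239947245938479716304835356329624224137216) (Nat.mul NG (Nat.add (Nat.mul x.A y.W) (Nat.mul x.W y.A)))) (Nat.mul (nat_lit 2410312426921032588580116606028314112912093247945688951359675039065257391591803200669085024107346049663448766280888004787862416978794958324969612987890774651455213339381625224770782077917681499676845543137387820057597345857904599109461387122099507964997815641342300677629473355281617428411794163967785870370368969109221591943054232011562758450080579587850900993714892283476646631181515063804873375182260506246992837898705971012525843324401232986857004760339316736) (Nat.add (Nat.mul x.T y.W) (Nat.mul x.W y.T))))⟩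
def qsub (x y : Q4) : Q4 :=
  ⟨msub x.O y.O, msub x.R y.R, msub x.A y.A, msub x.W y.W, msub x.T y.T⟩
def B0q : Bil Q4 Q4 VR := ⟨qsub, qsub, vp, vsub, v4⟩
def B1q : Bil (N3 Q4) (N3 Q4) (N3 VR) := nxB B0q
def B2q : Bil (N3 (N3 Q4)) (N3 (N3 Q4)) (N3 (N3 VR)) := nxB B1q
def B3q : Bil (N3 (N3 (N3 Q4))) (N3 (N3 (N3 Q4))) (N3 (N3 (N3 VR))) := nxB B2q
def B4q : Bil (N3 (N3 (N3 (N3 Q4)))) (N3 (N3 (N3 (N3 Q4)))) (N3 (N3 (N3 (N3 VR)))) := nxB B3q

/-- leafwise binary operations -/
structure F2 (α β γ : Type) where
  f : α → β → γ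
def nxF {α β γ : Type} (F : F2 α β γ) : F2 (N3 α) (N3 β) (N3 γ) := ⟨bi F.f⟩
structure Q2 where
  a : Nat
  b : Nat
def F0 : F2 Cx Cx Q2 := ⟨fun x y => ⟨toM x.re, toM y.re⟩⟩
def F1 : F2 (N3 Cx) (N3 Cx) (N3 Q2) := nxF F0
def F2' : F2 (N3 (N3 Cx)) (N3 (N3 Cx)) (N3 (N3 Q2)) := nxF F1
def F3 : F2 (N3 (N3 (N3 Cx))) (N3 (N3 (N3 Cx))) (N3 (N3 (N3 Q2))) := nxF F2'
def F4 : F2 (N3 (N3 (N3 (N3 Cx)))) (N3 (N3 (N3 (N3 Cx)))) (N3 (N3 (N3 (N3 Q2)))) := nxF F3
def G0 : F2 Q2 Q2 Q4 := ⟨fun x y => ⟨(nat_lit 281474976710656), x.a, x.b, y.a, y.b⟩⟩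
def G1 : F2 (N3 Q2) (N3 Q2) (N3 Q4) := nxF G0
def G2 : F2 (N3 (N3 Q2)) (N3 (N3 Q2)) (N3 (N3 Q4)) := nxF G1
def G3 : F2 (N3 (N3 (N3 Q2))) (N3 (N3 (N3 Q2))) (N3 (N3 (N3 Q4))) := nxF G2
def G4 : F2 (N3 (N3 (N3 (N3 Q2)))) (N3 (N3 (N3 (N3 Q2)))) (N3 (N3 (N3 (N3 Q4)))) := nxF G3
def H0 : F2 VR VR VR := ⟨vadd⟩
def H1 : F2 (N3 VR) (N3 VR) (N3 VR) := nxF H0
def H2 : F2 (N3 (N3 VR)) (N3 (N3 VR)) (N3 (N3 VR)) := nxF H1
def H3 : F2 (N3 (N3 (N3 VR))) (N3 (N3 (N3 VR))) (N3 (N3 (N3 VR))) := nxF H2
def H4 : F2 (N3 (N3 (N3 (N3 VR)))) (N3 (N3 (N3 (N3 VR)))) (N3 (N3 (N3 (N3 VR)))) := nxF H3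

/-- bounds, differences and radius of the entries of a row -/
structure Rw where
  B : Nat
  r : Nat
  l : List DF

/-- a run (or a Bernstein coefficient of a family of runs): the tree of packed multipliers, the
rows, `sg`: the scale of the multipliers, `ca`, `cb`: `(ca + cb) λ = ca λ_l + cb λ_(l+dl)` -/
structure VO (β : Type) where
  V : β
  r0 : Rw
  r1 : Rw
  r2 : Rw
  sg : Nat
  ca : Nat
  cb : Nat
  dl : Nat

/-! products of two rows, in units `2 ^ (-96)` -/
def rB (x y : Rw) : Nat := Nat.mul x.B y.B
def dfB (x y : DF) (Bx By : Nat) : DF :=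
  ⟨Nat.add (Nat.mul x.D By) (Nat.mul Bx y.D), Nat.add (Nat.add (Nat.add (Nat.mul x.F By) (Nat.mul Bx y.F)) (Nat.mul x.F y.F)) (Nat.div (Nat.add (Nat.mul x.D y.D) (nat_lit 1)) (nat_lit 2))⟩
def zipDF (f : DF → DF → DF) (l : List DF) : List DF → List DF :=
  List.rec (motive := fun _ => List DF → List DF) (fun _ => [])
    (fun x _ ih l' => List.rec (motive := fun _ => List DF) [] (fun y t _ => f x y :: ih t) l') l
def rl (x y : Rw) : List DF := zipDF (fun a b => dfB a b x.B y.B) x.l y.l
/-- radius of the product of two entries as an interpolation -/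
def rr2 (x y : Rw) : Nat := Nat.add (Nat.add (Nat.add (Nat.mul x.r y.B) (Nat.mul y.r x.B)) (Nat.mul x.r y.r)) (er x.l y.l)
/-- error of `P_ij B_ia B_jb`, units `2 ^ (-144)`; `R` bounds the diagonal correction of `P` -/
def ePV {α : Type} (R : Nat) (P : Mo α) (x y : Rw) : Nat :=
  Nat.add (Nat.mul (Nat.add P.B R) (rr2 x y)) (er P.l (rl x y))
/-- error of the entries of `N` -/
def eN1 {α β : Type} (R : Nat) (P : KM α) (V : VO β) : Nat :=
  Nat.add (Nat.add (Nat.add (ePV R P.a V.r0 V.r0) (ePV R P.b V.r1 V.r1)) (ePV R P.c V.r2 V.r2)) (Nat.mul (nat_lit 2) (Nat.add (Nat.add (ePV R P.x V.r0 V.r1) (ePV R P.y V.r0 V.r2)) (ePV R P.w V.r1 V.r2)))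
def eN {α β : Type} (P : KM α) (V : VO β) : Nat :=
  eN1 (Nat.add (Nat.add (Nat.add (Nat.add (Nat.add P.a.r P.b.r) P.c.r) P.x.r) P.y.r) P.w.r) P V

/-- the four entries of a matrix -/
structure Qd (α : Type) where
  R : Mo α
  A : Mo α
  W : Mo α
  T : Mo α
/-- from `R`, `R²` (or `R R'`) and `S` -/
def mkQd {α : Type} (A : Alg α) (r rr S : Mo α) : Qd α :=
  ⟨r, subM A rr S, addM A rr S, mulM A (addM A r r) S⟩
/-- `2 R` as a row entry: `R + R` -/
def row0 {α : Type} (A : Alg α) (x : Qd α) : Mo α := addM A x.R x.R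
def mxRw (x y : Rw) : Rw := ⟨mx x.B y.B, mx x.r y.r, mxL x.l y.l⟩
def rw {α : Type} (x : Mo α) : Rw := ⟨x.B, x.r, x.l⟩
def rw0 {α : Type} (A : Alg α) (x : Qd α) : Rw :=
  mxRw (rw (cst A (nat_lit 281474976710656) (nat_lit 0))) (mxRw (rw (row0 A x)) (rw x.A))
def rw1 {α : Type} (x : Qd α) : Rw := mxRw (rw x.R) (mxRw (rw x.A) (rw x.T))
def rw2 {α : Type} (x : Qd α) : Rw := rw x.W

/-- trees of the machinery for the matrices of the tail stars -/
structure Mq (α v : Type) where
  A : Alg α
  /-- `B^T E B' + B'^T E B` as a tree (times `4` in the quadratic variables) -/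
  V : Qd α → Qd α → v
  /-- sum -/
  a : v → v → v
def mkV {α a b v : Type} (F : F2 α α a) (G : F2 a a b) (B : Bil b b v) (x y : Qd α) : v :=
  B.mu (G.f (F.f x.R.v x.A.v) (F.f x.W.v x.T.v)) (G.f (F.f y.R.v y.A.v) (F.f y.W.v y.T.v))
def Q1m : Mq (N3 Cx) (N3 VR) := ⟨A1, mkV F1 G1 B1q, H1.f⟩
def Q2m : Mq (N3 (N3 Cx)) (N3 (N3 VR)) := ⟨A2, mkV F2' G2 B2q, H2.f⟩
def Q3m : Mq (N3 (N3 (N3 Cx))) (N3 (N3 (N3 VR))) := ⟨A3, mkV F3 G3 B3q, H3.f⟩
def Q4m : Mq (N3 (N3 (N3 (N3 Cx)))) (N3 (N3 (N3 (N3 VR)))) := ⟨A4, mkV F4 G4 B4q, H4.f⟩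

/-- one run in a tail star -/
def vo1 {α v : Type} (M : Mq α v) (x : Qd α) : VO v :=
  ⟨M.V x x, rw0 M.A x, rw1 x, rw2 x, (nat_lit 32), (nat_lit 1), (nat_lit 0), (nat_lit 0)⟩
def r3x {α : Type} (f : Qd α → Rw) (x y z : Qd α) : Rw := mxRw (f x) (mxRw (f y) (f z))
def voB {α v : Type} (M : Mq α v) (x y z : Qd α) (V : v) (sg ca cb : Nat) : VO v :=
  ⟨V, r3x (rw0 M.A) x y z, r3x rw1 x y z, r3x rw2 x y z, sg, ca, cb, (nat_lit 1)⟩
/-- the five Bernstein coefficients of `B_R^T E B_R` on `[Ra, Rb]` from the control matrices -/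
def vo0 {α v : Type} (M : Mq α v) (x y z : Qd α) : VO v := voB M x y z (M.V x x) (nat_lit 32) (nat_lit 4) (nat_lit 0)
def vo1' {α v : Type} (M : Mq α v) (x y z : Qd α) : VO v := voB M x y z (M.V x y) (nat_lit 32) (nat_lit 3) (nat_lit 1)
def vo2 {α v : Type} (M : Mq α v) (x y z : Qd α) : VO v :=
  voB M x y z (M.a (M.V x z) (M.a (M.V y y) (M.V y y))) (nat_lit 96) (nat_lit 2) (nat_lit 2)
def vo3 {α v : Type} (M : Mq α v) (x y z : Qd α) : VO v := voB M x y z (M.V y z) (nat_lit 32) (nat_lit 1) (nat_lit 3)
def vo4 {α v : Type} (M : Mq α v) (x y z : Qd α) : VO v := voB M x y z (M.V z z) (nat_lit 32) (nat_lit 0) (nat_lit 4)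
/-- `S = 4/k² - 1` -/
def SM {α : Type} (A : Alg α) (k : Mo α) : Mo α :=
  subM A (mulM A (cst A (nat_lit 1125899906842624) (nat_lit 0)) (invM A (mulM A k k))) (cst A (nat_lit 281474976710656) (nat_lit 0))
/-- `1 + 2/k` -/
def R1M {α : Type} (A : Alg α) (k : Mo α) : Mo α :=
  addM A (cst A (nat_lit 281474976710656) (nat_lit 0)) (mulM A (cst A (nat_lit 562949953421312) (nat_lit 0)) (invM A k))
def SOK {α : Type} (A : Alg α) (k : Mo α) : Bool :=
  andB (invOK A (mulM A k k)) (invOK A k)
def qm2 {α : Type} (A : Alg α) (R S : Mo α) : Qd α := mkQd A R (mulM A R R) S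
def qm3 {α : Type} (A : Alg α) (S : Mo α) : Qd α :=
  mkQd A (cst A (nat_lit 281474976710656) (nat_lit 0)) (cst A (nat_lit 281474976710656) (nat_lit 0)) S
/-- control matrix with `R`, `R R'` given -/
def qf {α : Type} (A : Alg α) (r rr : Nat) (S : Mo α) : Qd α :=
  mkQd A (cst A r (nat_lit 1)) (cst A rr (nat_lit 1)) S

/-! ### multi-affine multipliers times forms -/

structure LK (β γ : Type) where
  lk : Nat → Nat → β → β → γ
/-- encodes `-K` -/
def mkK0 (K : Nat) : Nat :=
  Nat.sub (nat_lit 3742053650892133432367999773538322459225928823527575869347258443714845654721230622578025143960328269485405327297098139231022085668061845034947449970308135571532807517583154272961348576981459749998781021839426465718090310264643077076205840221997333793705566554858379497305942188313676889327485713808961080219689423497888435204287465987058238606546039259493406110797570959958195453332343488283903207101642449836791365089268911792657730153283287365205752620781266587463305208487923046175337185602168825182420030628976250790456285182785862193159537182515747316200437848737549314525439323663739889672657632622750798067460039947895405569995587760858237906816071612609497286754503360146108967947337728)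 (Nat.add (Nat.add (Nat.add (Nat.add (Nat.add (Nat.add (Nat.add (Nat.add (Nat.mod K (nat_lit 4294967296)) (Nat.mul (nat_lit 115792089237316195423570985008687907853269984665640564039457584007913129639936) (u32 K (nat_lit 32)))) (Nat.mul (nat_lit 13407807929942597099574024998205846127479365820592393377723561443721764030073546976801874298166903427690031858186486050853753882811946569946433649006084096) (u32 K (nat_lit 64)))) (Nat.mul (nat_lit 1552518092300708935148979488462502555256886017116696611139052038026050952686376886330878408828646477950487730697131073206171580044114814391444287275041181139204454976020849905550265285631598444825262999193716468750892846853816057856) (u32 K (nat_lit 96)))) (Nat.mul (nat_lit 179769313486231590772930519078902473361797697894230657273430081157732675805500963132708477322407536021120113879871393357658789768814416622492847430639474124377767893424865485276302219601246094119453082952085005768838150682342462881473913110540827237163350510684586298239947245938479716304835356329624224137216) (u32 K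 (nat_lit 128)))) (Nat.mul (nat_lit 20815864389328798163850480654728171077230524494533409610638224700807216119346720596024478883464648369684843227908562015582767132496646929816279813211354641525848259018778440691546366699323167100945918841095379622423387354295096957733925002768876520583464697770622321657076833170056511209332449663781837603694136444406281042053396870977465916057756101739472373801429441421111406337458176) (u32 K (nat_lit 160)))) (Nat.mul (nat_lit 2410312426921032588580116606028314112912093247945688951359675039065257391591803200669085024107346049663448766280888004787862416978794958324969612987890774651455213339381625224770782077917681499676845543137387820057597345857904599109461387122099507964997815641342300677629473355281617428411794163967785870370368969109221591943054232011562758450080579587850900993714892283476646631181515063804873375182260506246992837898705971012525843324401232986857004760339316736) (u32 K (nat_lit 192)))) (Nat.mul (nat_lit 279095111627852376407822673918065072905887935345660252615989519488029661278604994789701101367875859521849524793382568057369148405837577299984720398976429790087982805274893437406788716103454867635208144157749912668657006085226160261808841484862703257771979713923863820038729637520989894984676774385364934677289947762340313157123529922421738738162392233756507666339799675257002539356619747080176786496732679854783185583233878234270370065954615221443190595445898747930123678952192875629172092437548194134594886873249778512829119416327938768896)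 (u32 K (nat_lit 224)))) (Nat.mul (nat_lit 32317006071311007300714876688669951960444102669715484032130345427524655138867890893197201411522913463688717960921898019494119559150490921095088152386448283120630877367300996091750197750389652106796057638384067568276792218642619756161838094338476170470581645852036305042887575891541065808607552399123930385521914333389668342420684974786564569494856176035326322058077805659331026192708460314150258592864177116725943603718461857357598351152301645904403697613233287231227125684710820209725157101726931323469678542580656697935045997268352998638215525166389437335543602135433229604645318478604952148193555853611059596230656) (u32 K (nat_lit 256))))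
def lk0 (k l T L : Nat) : Nat := Nat.mul (u32 L (Nat.mul (nat_lit 32) l)) (mkK0 (kf T k))
def L0 : LK Nat Nat := ⟨lk0⟩
structure Ad (γ : Type) where
  ad : γ → γ → γ
def D0 : Ad Nat := ⟨fun x y => md (Nat.add x y)⟩
def nxD {γ : Type} (D : Ad γ) : Ad (N3 γ) := ⟨bi D.ad⟩
def D1 : Ad (N3 Nat) := nxD D0
def D2 : Ad (N3 (N3 Nat)) := nxD D1
def D3 : Ad (N3 (N3 (N3 Nat))) := nxD D2
def lkN1 {γ : Type} (D : Ad γ) (x y z w : γ) : N3 γ := N3.q (D.ad x x) (D.ad y z) (D.ad w w)
def nxL {β γ : Type} (D : Ad γ) (L : LK β γ) : LK (Pr β) (N3 γ) :=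
  ⟨fun k l T S => lkN1 D (L.lk k l T.a S.a) (L.lk k l T.b S.a) (L.lk k l T.a S.b)
    (L.lk k l T.b S.b)⟩
def L1 : LK (Pr Nat) (N3 Nat) := nxL D0 L0
def L2 : LK (Pr (Pr Nat)) (N3 (N3 Nat)) := nxL D1 L1
def L3 : LK (Pr (Pr (Pr Nat))) (N3 (N3 (N3 Nat))) := nxL D2 L2
def L4 : LK (Pr (Pr (Pr (Pr Nat)))) (N3 (N3 (N3 (N3 Nat)))) := nxL D3 L3

/-! ### the tests -/

/-- `psd` at all leaves of `u D + v (ca X + cb Y) + w` -/
structure Ps (γ : Type) where
  t : Nat → Nat → Nat → Nat → Nat → γ → γ → γ → Bool
def ps0 (u v w ca cb x y z : Nat) : Bool := psd (md (Nat.add (Nat.add (Nat.mul u x) (Nat.mul v (Nat.add (Nat.mul ca y) (Nat.mul cb z)))) w))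
def P0 : Ps Nat := ⟨ps0⟩
def nxP {γ : Type} (P : Ps γ) : Ps (N3 γ) :=
  ⟨fun u v w ca cb x y z => andB (P.t u v w ca cb (fa x) (fa y) (fa z))
    (andB (P.t u v w ca cb (fc x) (fc y) (fc z)) (P.t u v w ca cb (fb x) (fb y) (fb z)))⟩
def P1 : Ps (N3 Nat) := nxP P0
def P2 : Ps (N3 (N3 Nat)) := nxP P1
def P3 : Ps (N3 (N3 (N3 Nat))) := nxP P2
def P4 : Ps (N3 (N3 (N3 (N3 Nat)))) := nxP P3

/-- all the machinery for `L` variables: `α` scalar trees, `β` vertices, `p`, `v`, `γ` trees of
`P9`, `VR`, packed forms -/
structure Mc (α β p v γ : Type) where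
  A : Alg α
  T : Tst α
  U : Up β α
  Z : Zp α p
  B : Bil p v γ
  L : LK β γ
  P : Ps γ
  /-- `2 ^ L` -/
  s : Nat
  /-- `2 ^ (28 - L)` -/
  w : Nat

def K1 : Mc (N3 Cx) (Pr Nat) (N3 P9) (N3 VR) (N3 Nat) := ⟨A1, T1, U1, Z1, B1, L1, P1, (nat_lit 2), (nat_lit 134217728)⟩
def K2 : Mc (N3 (N3 Cx)) (Pr (Pr Nat)) (N3 (N3 P9)) (N3 (N3 VR)) (N3 (N3 Nat)) :=
  ⟨A2, T2, U2, Z2, B2, L2, P2, (nat_lit 4), (nat_lit 67108864)⟩
def K3 : Mc (N3 (N3 (N3 Cx))) (Pr (Pr (Pr Nat))) (N3 (N3 (N3 P9))) (N3 (N3 (N3 VR)))
    (N3 (N3 (N3 Nat))) :=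
  ⟨A3, T3, U3, Z3, B3, L3, P3, (nat_lit 8), (nat_lit 33554432)⟩
def K4 : Mc (N3 (N3 (N3 (N3 Cx)))) (Pr (Pr (Pr (Pr Nat)))) (N3 (N3 (N3 (N3 P9))))
    (N3 (N3 (N3 (N3 VR)))) (N3 (N3 (N3 (N3 Nat)))) :=
  ⟨A4, T4, U4, Z4, B4, L4, P4, (nat_lit 16), (nat_lit 16777216)⟩

structure BT (v : Type) where
  V : VO v
  s : List SE
structure PT (v : Type) where
  k : Nat
  b : List (BT v)

/-- one source -/
def chS {α β p v γ : Type} (M : Mc α β p v γ) (KT LT : β) (V : VO v) (e : Nat) (N : γ) (x : SE) :
    Bool :=
  M.P.t (Nat.mul (Nat.add V.ca V.cb) M.s) (Nat.mul V.sg (nat_lit 1267650600228229401496703205376)) (Nat.add (nat_lit 1871026825446066716183999886769161229612964411763787934673629221857388127239586241236997880575614864626694998997878668093460198064341887307173708030584713089751434338833145753991855834341641635817078791323944486323653560896858453107221646736647080365267476951252133001328457872097694522420600377928767186716688278330708865686161029267144657449407487701311690973716443035965661022999314253327687828776410995801788781156965587263609715326599328293187017518987303885722372280682885301503915558342964973492047287451599068995659787742790895207638722168769866005616869112421885399924975074859139562836571418106717640748641020347763944440483085523393832772204956743819877359460055035121445025236385792)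 (Nat.mul NG (Nat.mul e (nat_lit 13407807929942597099574024998205846127479365820592393377723561443721764030073662768891111614362326998675040546094339320838419523375986027530441562135724033)))) V.ca V.cb N
    (M.L.lk x.k x.l KT LT) (M.L.lk x.k (Nat.add x.l V.dl) KT LT)
def chB1 {α β p v γ : Type} (M : Mc α β p v γ) (KT LT : β) (V : VO v) (e : Nat) (N : γ)
    (s : List SE) : Bool :=
  List.rec (motive := fun _ => Bool) true (fun x _ ih => andB (chS M KT LT V e N x) ih) s
/-- the error is not too large -/
def chB2 {α β p v γ : Type} (M : Mc α β p v γ) (KT LT : β) (V : VO v) (e : Nat) (N : γ)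
    (s : List SE) : Bool :=
  andB (Nat.ble e (nat_lit 1606938044258990275541962092341162602522202993782792835301376)) (chB1 M KT LT V e N s)
/-- one run; `e`: the error `3 (ca + cb) 2 ^ L sg eN + 1` -/
def chB {α β p v γ : Type} (M : Mc α β p v γ) (KT LT : β) (P : KM α) (Q : p) (x : BT v) : Bool :=
  chB2 M KT LT x.V (Nat.add (Nat.mul (nat_lit 3) (Nat.mul (Nat.mul (Nat.mul (Nat.add x.V.ca x.V.cb) M.s) x.V.sg) (eN P x.V))) (nat_lit 1))
    (M.B.mu Q x.V.V) x.s
def mokT {α : Type} (m : Mo α) : Bool := Nat.ble (Nat.add m.r m.B) (nat_lit 4611686018427387904)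
def kmOK {α : Type} (P : KM α) : Bool :=
  andB (mokT P.a) (andB (mokT P.b) (andB (mokT P.c) (andB (mokT P.x) (andB (mokT P.y)
    (mokT P.w)))))
def chP1 {α β p v γ : Type} (M : Mc α β p v γ) (KT LT : β) (b : List (BT v)) (P : KM α) (Q : p) :
    Bool :=
  List.rec (motive := fun _ => Bool) true (fun x _ ih => andB (chB M KT LT P Q x) ih) b
/-- a target form -/
def chP {α β p v γ : Type} (M : Mc α β p v γ) (KT LT : β) (b : List (BT v)) (P : KM α) : Bool :=
  andB (kmOK P) (chP1 M KT LT b P (zipP M.Z P))
def chE {α β p v γ : Type} (M : Mc α β p v γ) (KT LT : β) (C : CE α) (l : List (PT v)) : Bool :=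
  List.rec (motive := fun _ => Bool) true
    (fun x _ ih => andB (chP M KT LT x.b (PE M.A C (mkKM M.A M.U M.w KT x.k))) ih) l
def chO {α β p v γ : Type} (M : Mc α β p v γ) (KT LT : β) (C : CO α) (l : List (PT v)) : Bool :=
  List.rec (motive := fun _ => Bool) true
    (fun x _ ih => andB (chP M KT LT x.b (PO M.A C (mkKM M.A M.U M.w KT x.k))) ih) l

/-- reference vectors: test of the form at `(1, p/640, q/640)` at all leaves -/
structure Sv (p : Type) where
  t : (P9 → Bool) → p → Bool
def S0 : Sv P9 := ⟨fun f x => f x⟩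
def nxS {p : Type} (S : Sv p) : Sv (N3 p) :=
  ⟨fun f x => andB (S.t f (fa x)) (andB (S.t f (fc x)) (S.t f (fb x)))⟩
def S1 : Sv (N3 P9) := nxS S0
def S2 : Sv (N3 (N3 P9)) := nxS S1
def S3 : Sv (N3 (N3 (N3 P9))) := nxS S2
def S4 : Sv (N3 (N3 (N3 (N3 P9)))) := nxS S3
def chR {α β p v γ : Type} (M : Mc α β p v γ) (S : Sv p) (f : P9 → Bool) (KT : β) (C : CE α)
    (l : List Nat) : Bool :=
  List.rec (motive := fun _ => Bool) true
    (fun k _ ih => andB (andB (kmOK (PE M.A C (mkKM M.A M.U M.w KT k)))
      (S.t f (zipP M.Z (PE M.A C (mkKM M.A M.U M.w KT k))))) ih) l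

structure Prog (v : Type) where
  e0 : List (PT v)
  e1 : List (PT v)
  e2 : List (PT v)
  e3 : List (PT v)
  e4 : List (PT v)
  e5 : List (PT v)
  o0 : List (PT v)
  o1 : List (PT v)
  o2 : List (PT v)
  o3 : List (PT v)
  o4 : List (PT v)
  o5 : List (PT v)
  r0 : List Nat
  r1 : List Nat
  r2 : List Nat
  r3 : List Nat
  r4 : List Nat
  r5 : List Nat
  l0 : List Nat
  l1 : List Nat
  l2 : List Nat
  l3 : List Nat
  l4 : List Nat
  l5 : List Nat

/-- the blocks with `om' = m_i` -/
def chOm {α β p v γ : Type} (M : Mc α β p v γ) (S : Sv p) (C : Cls α) (KT LT : β) (G : Prog v)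
    (m0 m1 m2 m3 m4 m5 : Mo α) : Bool :=
  andB (chE M KT LT (mkE M.A m0 m3) G.e0) (
  andB (chE M KT LT (mkE M.A m1 m4) G.e1) (
  andB (chE M KT LT (mkE M.A m2 m5) G.e2) (
  andB (chE M KT LT (mkE M.A m3 m0) G.e3) (
  andB (chE M KT LT (mkE M.A m4 m1) G.e4) (
  andB (chE M KT LT (mkE M.A m5 m2) G.e5) (
  andB (chO M KT LT (mkO M.A m0 m2 C.h2 C.q2 C.e2) G.o0) (
  andB (chO M KT LT (mkO M.A m1 m0 C.h0 C.q0 C.e0) G.o1) (
  andB (chO M KT LT (mkO M.A m2 m1 C.h1 C.q1 C.e1) G.o2) (
  andB (chO M KT LT (mkO M.A m3 m4 C.h0 C.q0 C.e0) G.o3) (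
  andB (chO M KT LT (mkO M.A m4 m5 C.h1 C.q1 C.e1) G.o4) (
  andB (chO M KT LT (mkO M.A m5 m3 C.h2 C.q2 C.e2) G.o5) (
  andB (chR M S tst KT (mkR M.A m0) G.r0) (
  andB (chR M S tst KT (mkR M.A m1) G.r1) (
  andB (chR M S tst KT (mkR M.A m2) G.r2) (
  andB (chR M S tst KT (mkR M.A m3) G.r3) (
  andB (chR M S tst KT (mkR M.A m4) G.r4) (
  andB (chR M S tst KT (mkR M.A m5) G.r5) (
  andB (chR M S tsl KT (mkL M.A m0) G.l0) (
  andB (chR M S tsl KT (mkL M.A m1) G.l1) (
  andB (chR M S tsl KT (mkL M.A m2) G.l2) (
  andB (chR M S tsl KT (mkL M.A m3) G.l3) (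
  andB (chR M S tsl KT (mkL M.A m4) G.l4)
  (chR M S tsl KT (mkL M.A m5) G.l5)))))))))))))))))))))))

def chG {α β p v γ : Type} (M : Mc α β p v γ) (S : Sv p) (C : Cls α) (KT LT : β) (G : Prog v)
    (g0 g1 g2 g3 g4 g5 : Mo α) : Bool :=
  andB (invOK M.A g0) (andB (invOK M.A g1) (andB (invOK M.A g2) (andB (invOK M.A g3)
    (andB (invOK M.A g4) (andB (invOK M.A g5) (chOm M S C KT LT G (invM M.A g0) (invM M.A g1)
      (invM M.A g2) (invM M.A g3) (invM M.A g4) (invM M.A g5)))))))

def chZ {α β p v γ : Type} (M : Mc α β p v γ) (S : Sv p) (C : Cls α) (KT LT : β) (G : Prog v)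
    (u z : Mo α) : Bool :=
  chG M S C KT LT G (gM M.A C.l0 u) (gM M.A C.l1 u) (gM M.A C.l2 u) (gM M.A C.l0 z)
    (gM M.A C.l1 z) (gM M.A C.l2 z)

def chX {α β p v γ : Type} (M : Mc α β p v γ) (S : Sv p) (C : Cls α) (KT LT : β) (G : Prog v)
    (m : Nat) (x u z : Mo α) : Bool :=
  andB (M.T.t m x.v u.v) (chZ M S C KT LT G (uM M.A m x u z) (zM x (uM M.A m x u z) z))

/-- THE TEST OF THE BLOCKS OF A CELL: `x` the model of `x_0(κ) + i y`, `u` the control values of
`1/z` -/
def chCell {α β p v γ : Type} (M : Mc α β p v γ) (S : Sv p) (C : Cls α) (G : Prog v) (x : Mo α)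
    (m : Nat) (u : α) (KT LT : β) : Bool :=
  chX M S C KT LT G m x (mk M.A u (nat_lit 0)) (mk M.A (M.A.sub x.v u) (nat_lit 0))

end Pool.Agent.Helper86.CT
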